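import Pool.Agent.Helper96.SE.Stmts
import Pool.Agent.Helper34.Grid.FD

set_option autoImplicit false

namespace Pool.Agent.Helper96.SE

open Pool.Agent.Helper52.Grid
open Pool.Agent.Helper34.Grid (hCell_vals vCell_vals hR_vals vR_vals mod_Vals)

theorem cst_hTU (r x : ℕ) : hTU r x = 0 ∨ hTU r x = 2 ∨ hTU r x = 4 := by
  unfold hTU
  split <;> simp

theorem cst_vTU (r x : ℕ) : vTU r x = 0 ∨ vTU r x = 2 ∨ vTU r x = 4 := by
  unfold vTU
  split <;> simp

theorem cst_hTL (r x : ℕ) : hTL r x = 0 ∨ hTL r x = 2 ∨ hTL r x = 4 := by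
  unfold hTL
  split <;> simp

theorem cst_vTL (r x : ℕ) : vTL r x = 0 ∨ vTL r x = 2 ∨ vTL r x = 4 := by
  unfold vTL
  split <;> simp

theorem cst_hE (ρ : RK) (r x : ℕ) : hE ρ r x = 0 ∨ hE ρ r x = 2 ∨ hE ρ r x = 4 := by
  unfold hE
  split_ifs
  · exact hCell_vals _ _ _
  · cases ρ
    · exact hCell_vals _ _ _
    · exact cst_hTU _ _
    · exact cst_hTL _ _
  · exact hCell_vals _ _ _
  · exact hR_vals _ _

theorem cst_vE (ρ : RK) (i r x : ℕ) : vE ρ i r x = 0 ∨ vE ρ i r x = 2 ∨ vE ρ i r x = 4 := by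
  unfold vE
  split_ifs
  · exact vCell_vals _ _ _
  · cases ρ
    · exact Or.inr (Or.inr rfl)
    · exact cst_vTU _ _
    · exact cst_vTL _ _
  · exact vCell_vals _ _ _
  · exact vR_vals _ _ _

theorem st_CST : ST_CST := by
  intro s M T
  constructor
  · intro x y
    unfold hN
    split_ifs
    · exact (mod_Vals s M).1 x y
    · exact Or.inl rfl
    · exact Or.inr (Or.inr rfl)
    · exact cst_hE _ _ _
    · exact Or.inr (Or.inr rfl)
  · intro x y
    unfold vN
    split_ifs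
    · exact (mod_Vals s M).2 x y
    · exact Or.inl rfl
    · exact Or.inr (Or.inr rfl)
    · exact cst_vE _ _ _ _
    · exact Or.inr (Or.inr rfl)

end Pool.Agent.Helper96.SE
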